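import Mathlib
import Pool.Agent.H90.P.Ns
import Pool.Agent.H90.P.Helper386.D5V.Helper386_FF_Place
import Pool.Agent.H90.P.Helper386.D5V.Helper399_OverDefs
import Pool.Agent.H90.P.W603.LV.Ord
import Pool.Agent.H90.P.W619.PQ.Defs
import Pool.Agent.H90.P.W619.PQ.Dual
import Pool.Agent.H90.P.W619.PQ.Local
import Pool.Agent.H90.P.W619.PQ.Log
import Pool.Agent.H90.P.W619.Y.Stm

/-!
# Project PG (helper619), part FRAME
-/

set_option autoImplicit false
set_option linter.overlappingInstances false
set_option linter.unusedSectionVars false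

universe u v

open FF IntermediateField Pool.Agent.W619.PQ Pool.Agent.W619.PL Pool.Agent.W619.TW
  Pool.Agent.W603.LV

namespace Pool.Agent.W240.PG.Frame

section

variable {k : Type v} {K : Type u} [Field k] [Field K] [Algebra k K] {m : ℕ}

/-- evaluation of polynomials over polynomials -/
noncomputable def psi (s : K) (y : Fin m → K) : Polynomial (MvPolynomial (Fin m) k) →+* K :=
  Polynomial.eval₂RingHom (MvPolynomial.aeval y : MvPolynomial (Fin m) k →ₐ[k] K).toRingHom s

theorem aeval_cons (s : K) (y : Fin m → K) (P : MvPolynomial (Fin (m + 1)) k) :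
    MvPolynomial.aeval (Fin.cons s y : Fin (m + 1) → K) P =
      psi s y (MvPolynomial.finSuccEquiv k m P) := by
  induction P using MvPolynomial.induction_on with
  | C a =>
    have h1 : MvPolynomial.finSuccEquiv k m (MvPolynomial.C a) =
        Polynomial.C (MvPolynomial.C a) := by
      exact (MvPolynomial.finSuccEquiv k m).commutes a
    rw [h1]
    simp [psi]
  | add p q hp hq => rw [map_add, map_add, map_add, hp, hq]
  | mul_X p i hp =>
    rw [map_mul, map_mul, map_mul, hp]
    congr 1
    refine Fin.cases ?_ (fun j => ?_) i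
    · rw [MvPolynomial.finSuccEquiv_X_zero]
      simp [psi]
    · rw [MvPolynomial.finSuccEquiv_X_succ]
      simp [psi]

variable (v : Place k K) {s : K} {y : Fin m → K}

theorem ge_psi (hs : v.ord s = 1)
    (hy : ∀ p : MvPolynomial (Fin m) k, p ≠ 0 →
      MvPolynomial.aeval y p ≠ 0 ∧ v.ord (MvPolynomial.aeval y p) = 0)
    (Q : Polynomial (MvPolynomial (Fin m) k)) : Ge v 0 (psi s y Q) := by
  have hs' : Ge v 0 s := Or.inr (by rw [hs]; norm_num)
  induction Q using Polynomial.induction_on' with
  | add p q hp hq => rw [map_add]; exact hp.add hq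
  | monomial n a =>
    have h1 : psi s y (Polynomial.monomial n a) = MvPolynomial.aeval y a * s ^ n := by
      simp [psi]
    rw [h1]
    have h2 : Ge v 0 (MvPolynomial.aeval y a) := by
      by_cases ha : a = 0
      · rw [ha, map_zero]; exact Or.inl rfl
      · exact Or.inr (hy a ha).2.ge
    have h3 := h2.mul (hs'.pow n)
    simpa using h3

/-- nonzero constant coefficient -/
theorem psi_coeff_zero (hs : v.ord s = 1)
    (hy : ∀ p : MvPolynomial (Fin m) k, p ≠ 0 →
      MvPolynomial.aeval y p ≠ 0 ∧ v.ord (MvPolynomial.aeval y p) = 0)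
    (Q : Polynomial (MvPolynomial (Fin m) k)) (h0 : Q.coeff 0 ≠ 0) :
    psi s y Q ≠ 0 ∧ v.ord (psi s y Q) = 0 := by
  have hs0 : s ≠ 0 := by
    rintro rfl
    rw [v.ord_zero] at hs
    norm_num at hs
  have h1 : Q = Polynomial.X * Q.divX + Polynomial.C (Q.coeff 0) := (Polynomial.X_mul_divX_add Q).symm
  have h2 : psi s y Q = s * psi s y Q.divX + MvPolynomial.aeval y (Q.coeff 0) := by
    conv_lhs => rw [h1]
    rw [map_add, map_mul]
    simp [psi]
  obtain ⟨h3, h4⟩ := hy _ h0
  have h5 := ge_psi v hs hy Q.divX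
  by_cases h6 : psi s y Q.divX = 0
  · rw [h2, h6, mul_zero, zero_add]
    exact ⟨h3, h4⟩
  · have h7 : 0 ≤ v.ord (psi s y Q.divX) := h5.resolve_left h6
    have h8 : v.ord (s * psi s y Q.divX) = 1 + v.ord (psi s y Q.divX) := by
      rw [v.ord_mul hs0 h6, hs]
    have h9 : psi s y Q ≠ 0 := by
      intro h
      rw [h2] at h
      have h10 : MvPolynomial.aeval y (Q.coeff 0) = -(s * psi s y Q.divX) := by
        linear_combination h
      have h11 := congrArg v.ord h10
      rw [h4, v.ord_neg, h8] at h11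
      omega
    refine ⟨h9, ?_⟩
    rw [h2, add_comm]
    rw [(v.ord_add_eq h3 (mul_ne_zero hs0 h6) (by rw [h4, h8]; omega)).2, h4]

theorem psi_factor (hs : v.ord s = 1)
    (hy : ∀ p : MvPolynomial (Fin m) k, p ≠ 0 →
      MvPolynomial.aeval y p ≠ 0 ∧ v.ord (MvPolynomial.aeval y p) = 0)
    (Q : Polynomial (MvPolynomial (Fin m) k)) (h0 : Q ≠ 0) :
    ∃ (t : ℕ) (Q' : Polynomial (MvPolynomial (Fin m) k)), psi s y Q = s ^ t * psi s y Q' ∧
      psi s y Q' ≠ 0 ∧ v.ord (psi s y Q') = 0 := by
  obtain ⟨Q', hQ⟩ : Polynomial.X ^ Q.natTrailingDegree ∣ Q := by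
    rw [Polynomial.X_pow_dvd_iff]
    intro d hd
    exact Polynomial.coeff_eq_zero_of_lt_natTrailingDegree hd
  refine ⟨Q.natTrailingDegree, Q', ?_, ?_⟩
  · conv_lhs => rw [hQ]
    rw [map_mul, map_pow]
    simp [psi]
  · apply psi_coeff_zero v hs hy
    have h1 : Q.coeff Q.natTrailingDegree ≠ 0 := by
      have := Polynomial.trailingCoeff_nonzero_iff_nonzero.2 h0
      exact this
    intro h
    apply h1
    conv_lhs => rw [hQ]
    have := Polynomial.coeff_X_pow_mul Q' Q.natTrailingDegree 0
    rw [zero_add] at this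
    rw [← hQ] at this ⊢
    rw [this, h]

end

theorem main (h : Pool.Agent.W619.Y.S_PRES.{u, v}) : Pool.Agent.W619.Y.S_FRAME.{u, v} := by
  intro k K _ _ _ _ n htr hfin v hdiv
  obtain ⟨s, hs0, hs⟩ := v.surj
  obtain ⟨m, rfl⟩ : ∃ m, n = m + 1 := by
    refine Nat.exists_eq_succ_of_ne_zero ?_
    rintro rfl
    have halg : Algebra.IsAlgebraic k K := by
      rw [← trdeg_eq_zero_iff]
      exact_mod_cast htr
    have h1 := ord_eq_zero_of_alg (K0 := k) (K1 := K) (K2 := K) v (fun f => by
      by_cases hf : f = 0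
      · rw [hf, map_zero, v.ord_zero]
      · exact v.ord_const hf) s
    rw [Algebra.algebraMap_self, RingHom.id_apply, hs] at h1
    norm_num at h1
  obtain ⟨y', hy'⟩ := hdiv
  have hy : ∀ p : MvPolynomial (Fin m) k, p ≠ 0 →
      MvPolynomial.aeval y' p ≠ 0 ∧ v.ord (MvPolynomial.aeval y' p) = 0 := hy'
  set y : Fin (m + 1) → K := Fin.cons s y' with hydef
  have hind : AlgebraicIndependent k y := by
    rw [algebraicIndependent_iff]
    intro P hP
    by_contra hP0
    have h1 : MvPolynomial.finSuccEquiv k m P ≠ 0 := by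
      intro h2
      apply hP0
      exact (map_eq_zero_iff _ (MvPolynomial.finSuccEquiv k m).injective).1 h2
    obtain ⟨t, Q', hQ, hQ0, -⟩ := psi_factor v hs hy _ h1
    rw [hydef, aeval_cons, hQ] at hP
    exact (mul_ne_zero (pow_ne_zero t hs0) hQ0) hP
  have hbas : IsTranscendenceBasis k y := by
    apply hind.isTranscendenceBasis_of_lift_trdeg_le_of_finite
    rw [htr]
    simp
  choose E hE using fun i : Fin (m + 1) => exists_dual y hbas i
  have hregy : ∀ i, v.Reg (y i) := by
    intro i
    refine Fin.cases ?_ (fun j => ?_) i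
    · right; rw [hydef, Fin.cons_zero, hs]; norm_num
    · right
      rw [hydef, Fin.cons_succ]
      have h1 := (hy (MvPolynomial.X j) (MvPolynomial.X_ne_zero j)).2
      rw [MvPolynomial.aeval_X] at h1
      exact h1.ge
  have hEreg : ∀ (i : Fin (m + 1)) (P : MvPolynomial (Fin (m + 1)) k),
      Ge v 0 (MvPolynomial.aeval y P) ∧ Ge v 0 (E i (MvPolynomial.aeval y P)) := by
    intro i P
    induction P using MvPolynomial.induction_on with
    | C a =>
      have h1 : MvPolynomial.aeval y (MvPolynomial.C a : MvPolynomial (Fin (m + 1)) k) =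
          algebraMap k K a := by simp
      rw [h1]
      refine ⟨Ge.const a, ?_⟩
      rw [Derivation.map_algebraMap]
      exact Or.inl rfl
    | add p q hp hq =>
      rw [map_add, map_add]
      exact ⟨hp.1.add hq.1, hp.2.add hq.2⟩
    | mul_X p j hp =>
      rw [map_mul, MvPolynomial.aeval_X]
      have h1 : Ge v 0 (y j) := hregy j
      have h2 : Ge v 0 (E i (y j)) := by
        rw [hE]
        split_ifs
        · exact Ge.one
        · exact Or.inl rfl
      refine ⟨by simpa using hp.1.mul h1, ?_⟩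
      rw [Derivation.leibniz, smul_eq_mul, smul_eq_mul]
      have h3 := hp.1.mul h2
      have h4 := h1.mul hp.2
      rw [add_zero] at h3 h4
      exact h3.add h4
  -- the field generated by the coordinates
  let K0 : IntermediateField k K := IntermediateField.adjoin k (Set.range y)
  have hfd : FiniteDimensional K0 K := hfin y hbas
  have hsK : s ∈ K0 := by
    apply IntermediateField.subset_adjoin
    exact ⟨0, by rw [hydef, Fin.cons_zero]⟩
  let v0 : Place k K0 :=
    { ord := fun f => v.ord (f : K)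
      ord_zero := v.ord_zero
      ord_mul := fun {f g} hf hg => by
        have hf' : (f : K) ≠ 0 := fun h => hf (Subtype.ext h)
        have hg' : (g : K) ≠ 0 := fun h => hg (Subtype.ext h)
        exact v.ord_mul hf' hg'
      ord_add := fun {f g} hf hg hfg => by
        have hf' : (f : K) ≠ 0 := fun h => hf (Subtype.ext h)
        have hg' : (g : K) ≠ 0 := fun h => hg (Subtype.ext h)
        have hfg' : (f : K) + (g : K) ≠ 0 := fun h => hfg (Subtype.ext h)
        exact v.ord_add hf' hg' hfg'
      ord_const := fun {c} hc => v.ord_const hc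
      surj := ⟨⟨s, hsK⟩, fun h => hs0 (congrArg Subtype.val h), hs⟩ }
  have hover : Over v v0 1 := ⟨one_pos, fun f => by
    rw [Nat.cast_one, one_mul]; rfl⟩
  refine ⟨y, E, 0, hbas, ?_, ?_, hregy, ?_⟩
  · intro i j
    rw [hE]
    by_cases hij : j = i
    · rw [if_pos hij, if_pos hij.symm]
    · rw [if_neg hij, if_neg (Ne.symm hij)]
  · rw [hydef, Fin.cons_zero, hs]
  · intro i
    refine h k K0 K v0 v 1 hover (E i) ?_ (Or.inl rfl)
    intro x hx
    change Ge v 0 (E i (x : K))
    have hxr : Ge v 0 (x : K) := by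
      rcases hx with hx | hx
      · left; rw [hx]; rfl
      · right; exact hx
    by_cases hx0 : (x : K) = 0
    · rw [hx0, map_zero]; exact Or.inl rfl
    have hxm : (x : K) ∈ IntermediateField.adjoin k (Set.range y) := x.2
    rw [IntermediateField.mem_adjoin_range_iff] at hxm
    obtain ⟨p, q, hpq⟩ := hxm
    have hp0 : MvPolynomial.aeval y p ≠ 0 := by
      intro h1; apply hx0; rw [hpq, h1, zero_div]
    have hq0 : MvPolynomial.aeval y q ≠ 0 := by
      intro h1; apply hx0; rw [hpq, h1, div_zero]
    have hp1 : MvPolynomial.finSuccEquiv k m p ≠ 0 := by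
      intro h2
      apply hp0
      rw [(map_eq_zero_iff _ (MvPolynomial.finSuccEquiv k m).injective).1 h2, map_zero]
    have hq1 : MvPolynomial.finSuccEquiv k m q ≠ 0 := by
      intro h2
      apply hq0
      rw [(map_eq_zero_iff _ (MvPolynomial.finSuccEquiv k m).injective).1 h2, map_zero]
    obtain ⟨a, P', hP, hP0, hPo⟩ := psi_factor v hs hy _ hp1
    obtain ⟨b, Q', hQ, hQ0, hQo⟩ := psi_factor v hs hy _ hq1
    rw [← aeval_cons, ← hydef] at hP hQ
    -- the exponent is nonnegative
    have hab : b ≤ a := by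
      have h1 : 0 ≤ v.ord (x : K) := hxr.resolve_left hx0
      rw [hpq, v.ord_div hp0 hq0, hP, hQ, v.ord_mul (pow_ne_zero _ hs0) hP0,
        v.ord_mul (pow_ne_zero _ hs0) hQ0, v.ord_pow, v.ord_pow, hs, hPo, hQo] at h1
      omega
    -- numerator and denominator
    set Pn : MvPolynomial (Fin (m + 1)) k :=
      (MvPolynomial.finSuccEquiv k m).symm (Polynomial.X ^ (a - b) * P') with hPn
    set Qn : MvPolynomial (Fin (m + 1)) k := (MvPolynomial.finSuccEquiv k m).symm Q' with hQn
    have hPe : MvPolynomial.aeval y Pn = s ^ (a - b) * psi s y' P' := by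
      rw [hydef, aeval_cons, hPn, AlgEquiv.apply_symm_apply, map_mul, map_pow]
      simp [psi]
    have hQe : MvPolynomial.aeval y Qn = psi s y' Q' := by
      rw [hydef, aeval_cons, hQn, AlgEquiv.apply_symm_apply]
    have hx2 : (x : K) * MvPolynomial.aeval y Qn = MvPolynomial.aeval y Pn := by
      rw [hPe, hQe, hpq, hP, hQ]
      have h5 : s ^ a = s ^ (a - b) * s ^ b := by rw [← pow_add]; congr 1; omega
      have h6 : s ^ b ≠ 0 := pow_ne_zero _ hs0
      rw [h5]
      field_simp
    have hD := congrArg (E i) hx2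
    rw [Derivation.leibniz, smul_eq_mul, smul_eq_mul] at hD
    have h7 : Ge v 0 (MvPolynomial.aeval y Qn * E i (x : K)) := by
      have h8 : MvPolynomial.aeval y Qn * E i (x : K) =
          E i (MvPolynomial.aeval y Pn) - (x : K) * E i (MvPolynomial.aeval y Qn) := by
        linear_combination hD
      rw [h8]
      have h9 := hxr.mul (hEreg i Qn).2
      rw [add_zero] at h9
      exact (hEreg i Pn).2.sub h9
    rw [hQe] at h7
    have h10 := Ge.of_mul hQ0 h7
    rw [hQo, sub_zero] at h10
    exact h10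

end Pool.Agent.W240.PG.Frame
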